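import Pool.Agent.H196Z.QC.Int

set_option autoImplicit false

open scoped ContDiff InnerProductSpace
open MeasureTheory Real Filter Topology Set Metric

namespace Pool.Agent.H196Z.QC

theorem exp_taylor (T t : ℝ) (ht : |t| ≤ T) :
    |Real.exp t - 1 - t| ≤ (Real.exp T + 1 + T) * t ^ 2 := by
  have hT : 0 ≤ T := (abs_nonneg _).trans ht
  have hE := Real.exp_pos T
  rcases le_total |t| 1 with h | h
  · have := Real.abs_exp_sub_one_sub_id_le h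
    nlinarith [sq_nonneg t, mul_nonneg hE.le (sq_nonneg t), mul_nonneg hT (sq_nonneg t)]
  · have h1 : 1 ≤ t ^ 2 := by rw [← sq_abs]; nlinarith
    have h2 : Real.exp t ≤ Real.exp T := Real.exp_le_exp.2 ((le_abs_self t).trans ht)
    have h3 := Real.exp_pos t
    have h4 := abs_le.1 ht
    have h5 : |Real.exp t - 1 - t| ≤ Real.exp T + 1 + T := by
      rw [abs_le]; constructor <;> linarith
    nlinarith [mul_le_mul_of_nonneg_left h1 (by positivity : 0 ≤ Real.exp T + 1 + T)]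

theorem alg {δ : ℝ} (hδ : 0 < δ) (hδ1 : δ ≤ 1) : ∃ K : ℝ, 0 ≤ K ∧ ∀ ε s a b : ℝ, 0 < ε → ε ≤ δ →
    s ^ 2 ≤ a - ε ^ 2 → a ≤ 10 → b = ε ^ 2 + 4 * δ ^ 2 + 4 * δ * s + (a - ε ^ 2) → b ≤ 10 →
    δ ^ 2 ≤ b →
    |((ε ^ 2 + 4 * δ ^ 2) * Real.exp (2 / (ε ^ 2 + 4 * δ ^ 2) * ((s + δ) ^ 2 - δ ^ 2))) ^ 4 /
      (a ^ 4 * b ^ 4) - 1 / a ^ 4 - 1 / b ^ 4| ≤ K / a ^ 3 := by
  set c : ℝ := 3 / δ ^ 2 with hc
  have hc0 : 0 < c := by positivity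
  set K0 : ℝ := Real.exp (4 * c) + 1 + 4 * c with hK0
  have hK00 : 0 < K0 := by positivity
  set K1 : ℝ := 5 * K0 * c ^ 2 + 3 with hK1
  set B : ℝ := 5 * Real.exp (4 * c) + 10 with hB
  have hB0 : 0 < B := by positivity
  refine ⟨(4 * B ^ 3 * K1 + 1000) / δ ^ 8, by positivity, ?_⟩
  intro ε s a b hε hεδ hs ha hb hb10 hδb
  set D : ℝ := ε ^ 2 + 4 * δ ^ 2 with hD
  have hD0 : 0 < D := by positivity
  have hD5 : D ≤ 5 := by nlinarith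
  have hD4 : 4 * δ ^ 2 ≤ D := by nlinarith [sq_nonneg ε]
  have ha0 : 0 < a := by nlinarith [sq_nonneg s, pow_pos hε 2]
  have hb0 : 0 < b := lt_of_lt_of_le (by positivity) hδb
  set t : ℝ := 2 / D * ((s + δ) ^ 2 - δ ^ 2) with ht
  have hs4 : |s| ≤ 4 := by
    apply abs_le_of_sq_le_sq _ (by norm_num)
    nlinarith [sq_nonneg ε]
  have ht1 : |t| ≤ c * |s| := by
    have e1 : t = (2 * (s + 2 * δ) / D) * s := by rw [ht]; field_simp; ring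
    rw [e1, abs_mul]
    refine mul_le_mul_of_nonneg_right ?_ (abs_nonneg _)
    rw [abs_div, abs_of_pos hD0, div_le_iff₀ hD0]
    have h1 : |2 * (s + 2 * δ)| ≤ 12 := by
      rw [abs_le] at hs4 ⊢
      constructor <;> linarith
    have h2 : 12 ≤ c * D := by
      have : c * (4 * δ ^ 2) = 12 := by rw [hc]; field_simp; norm_num
      nlinarith
    linarith
  have ht2 : |t| ≤ 4 * c := by nlinarith
  have ht3 : t ^ 2 ≤ c ^ 2 * s ^ 2 := by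
    rw [← sq_abs t, ← sq_abs s, ← mul_pow]
    exact pow_le_pow_left₀ (abs_nonneg _) ht1 2
  have hexp := exp_taylor (4 * c) t ht2
  set X : ℝ := D * Real.exp t with hX
  have hX0 : 0 < X := by positivity
  have hXB : X ≤ B := by
    have : Real.exp t ≤ Real.exp (4 * c) := Real.exp_le_exp.2 ((le_abs_self t).trans ht2)
    have h3 := Real.exp_pos t
    nlinarith
  have hbB : b ≤ B := by have := Real.exp_pos (4 * c); linarith
  have hXb : |X - b| ≤ K1 * a := by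
    have e1 : X - b = D * (Real.exp t - 1 - t) + (2 * s ^ 2 - (a - ε ^ 2)) := by
      have : D * t = 2 * ((s + δ) ^ 2 - δ ^ 2) := by rw [ht]; field_simp
      rw [hX, hb]
      linear_combination this
    have h1 : |D * (Real.exp t - 1 - t)| ≤ 5 * (K0 * (c ^ 2 * a)) := by
      rw [abs_mul, abs_of_pos hD0]
      refine mul_le_mul hD5 (hexp.trans ?_) (abs_nonneg _) (by norm_num)
      refine mul_le_mul_of_nonneg_left (ht3.trans ?_) hK00.le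
      exact mul_le_mul_of_nonneg_left (by linarith [sq_nonneg ε]) (by positivity)
    have h2 : |2 * s ^ 2 - (a - ε ^ 2)| ≤ 3 * a := by
      rw [abs_le]; constructor <;> linarith [sq_nonneg s, sq_nonneg ε]
    rw [e1]
    refine (abs_add_le _ _).trans ?_
    rw [hK1]
    linarith
  have h4 : |X ^ 4 - b ^ 4| ≤ 4 * B ^ 3 * (K1 * a) := by
    have e1 : X ^ 4 - b ^ 4 = (X ^ 3 + X ^ 2 * b + X * b ^ 2 + b ^ 3) * (X - b) := by ring
    rw [e1, abs_mul, abs_of_pos (by positivity)]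
    refine mul_le_mul ?_ hXb (abs_nonneg _) (by positivity)
    have p1 : X ^ 3 ≤ B ^ 3 := by gcongr
    have p2 : X ^ 2 * b ≤ B ^ 2 * B := by gcongr
    have p3 : X * b ^ 2 ≤ B * B ^ 2 := by gcongr
    have p4 : b ^ 3 ≤ B ^ 3 := by gcongr
    linarith
  have h5 : a ^ 4 ≤ 1000 * a := by
    have : a ^ 3 * a ≤ 10 ^ 3 * a := by gcongr
    linarith
  have h6 : |X ^ 4 - b ^ 4 - a ^ 4| ≤ (4 * B ^ 3 * K1 + 1000) * a := by
    refine (abs_sub _ _).trans ?_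
    rw [abs_of_pos (pow_pos ha0 4)]
    linarith
  have e2 : X ^ 4 / (a ^ 4 * b ^ 4) - 1 / a ^ 4 - 1 / b ^ 4 =
      (X ^ 4 - b ^ 4 - a ^ 4) / (a ^ 4 * b ^ 4) := by field_simp
  rw [e2, abs_div, abs_of_pos (by positivity : 0 < a ^ 4 * b ^ 4)]
  have h7 : δ ^ 8 ≤ b ^ 4 := by
    have := pow_le_pow_left₀ (by positivity) hδb 4
    calc δ ^ 8 = (δ ^ 2) ^ 4 := by ring
      _ ≤ _ := this
  calc |X ^ 4 - b ^ 4 - a ^ 4| / (a ^ 4 * b ^ 4)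
      ≤ ((4 * B ^ 3 * K1 + 1000) * a) / (a ^ 4 * δ ^ 8) := by gcongr
    _ = _ := by field_simp

/-- the centre of the first bubble -/
noncomputable def P (δ : ℝ) : E := EuclideanSpace.single 0 δ

theorem norm_P {δ : ℝ} (hδ : 0 < δ) : ‖P δ‖ = δ := by simp [P, abs_of_pos hδ]

theorem nsq (x : E) : ‖x‖ ^ 2 = x 0 ^ 2 + x 1 ^ 2 + x 2 ^ 2 + x 3 ^ 2 := by
  rw [EuclideanSpace.real_norm_sq_eq, Fin.sum_univ_four]

theorem nsq_sub (δ : ℝ) (x : E) :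
    ‖x - P δ‖ ^ 2 = (x 0 - δ) ^ 2 + x 1 ^ 2 + x 2 ^ 2 + x 3 ^ 2 := by
  rw [nsq]; simp [P]

theorem nsq_add (δ : ℝ) (x : E) :
    ‖x + P δ‖ ^ 2 = (x 0 + δ) ^ 2 + x 1 ^ 2 + x 2 ^ 2 + x 3 ^ 2 := by
  rw [nsq]; simp [P]

/-- the two-bubble ansatz -/
noncomputable def W (δ ε : ℝ) (x : E) : ℝ :=
  (2 / (ε ^ 2 + 4 * δ ^ 2) * x 0 ^ 2 +
    (Real.log (2 * ε) + Real.log (ε ^ 2 + 4 * δ ^ 2) - 2 / (ε ^ 2 + 4 * δ ^ 2) * δ ^ 2)) +
    (bub ε (x - P δ) + bub ε (x - -P δ))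

theorem shift_smooth {f : E → ℝ} (hf : ContDiff ℝ ∞ f) (Q : E) :
    ContDiff ℝ ∞ (fun x => f (x - Q)) := hf.comp (contDiff_id.sub contDiff_const)

theorem W_smooth (δ : ℝ) {ε : ℝ} (hε : 0 < ε) : ContDiff ℝ ∞ (W δ ε) := by
  unfold W
  exact ((contDiff_const.mul sq_smooth).add contDiff_const).add
    ((shift_smooth (bub_smooth hε) _).add (shift_smooth (bub_smooth hε) _))

theorem bilap_W (δ : ℝ) {ε : ℝ} (hε : 0 < ε) :
    lap (lap (W δ ε)) = fun x => rho ε (x - P δ) + rho ε (x + P δ) := by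
  have b1 := shift_smooth (bub_smooth hε) (P δ)
  have b2 := shift_smooth (bub_smooth hε) (-P δ)
  have l1 := shift_smooth (lap_smooth (bub_smooth hε)) (P δ)
  have l2 := shift_smooth (lap_smooth (bub_smooth hε)) (-P δ)
  unfold W
  rw [lap_add ((contDiff_const.mul sq_smooth).add contDiff_const) (b1.add b2),
    lap_add (contDiff_const.mul sq_smooth) contDiff_const, lap_cmul sq_smooth, lap_sq, lap_const,
    lap_add b1 b2, lap_shift, lap_shift]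
  beta_reduce
  rw [lap_add contDiff_const (l1.add l2), lap_const, lap_add l1 l2, lap_shift, lap_shift,
    bilap_bub hε]
  funext x
  simp

theorem exp_W {δ ε : ℝ} (hε : 0 < ε) (x : E) :
    6 * Real.exp (4 * W δ ε x) = 96 * ε ^ 4 *
      (((ε ^ 2 + 4 * δ ^ 2) * Real.exp (2 / (ε ^ 2 + 4 * δ ^ 2) * (x 0 ^ 2 - δ ^ 2))) ^ 4 /
        (A ε (x - P δ) ^ 4 * A ε (x + P δ) ^ 4)) := by
  have hD : 0 < ε ^ 2 + 4 * δ ^ 2 := by positivity
  have h1 := A_pos hε (x - P δ)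
  have h2 := A_pos hε (x + P δ)
  have h : Real.exp (W δ ε x) = 2 * ε * ((ε ^ 2 + 4 * δ ^ 2) *
      Real.exp (2 / (ε ^ 2 + 4 * δ ^ 2) * (x 0 ^ 2 - δ ^ 2))) / (A ε (x - P δ) * A ε (x + P δ)) := by
    have : W δ ε x = Real.log (2 * ε) + Real.log (ε ^ 2 + 4 * δ ^ 2) +
        2 / (ε ^ 2 + 4 * δ ^ 2) * (x 0 ^ 2 - δ ^ 2) - Real.log (A ε (x - P δ)) -
        Real.log (A ε (x + P δ)) := by
      unfold W bub
      rw [sub_neg_eq_add]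
      ring
    rw [this, Real.exp_sub, Real.exp_sub, Real.exp_add, Real.exp_add, Real.exp_log (by positivity),
      Real.exp_log hD, Real.exp_log h1, Real.exp_log h2]
    field_simp
  rw [show (4 : ℝ) * W δ ε x = ((4 : ℕ) : ℝ) * W δ ε x by norm_num, Real.exp_nat_mul, h]
  field_simp
  norm_num

theorem small_pow {ε : ℝ} (hε : 0 < ε) (y : E) (hy : y ≠ 0) :
    ε ^ 4 / A ε y ^ 3 ≤ √ε * ‖y‖ ^ (-(5 / 2 : ℝ)) := by
  have hn : 0 < ‖y‖ := norm_pos_iff.2 hy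
  have hA := A_pos hε y
  have h1 : ε ^ (7 / 2 : ℝ) ≤ A ε y ^ (7 / 4 : ℝ) := by
    have : ε ^ 2 ≤ A ε y := by unfold A; nlinarith [sq_nonneg ‖y‖]
    calc ε ^ (7 / 2 : ℝ) = (ε ^ 2) ^ (7 / 4 : ℝ) := by
          rw [← Real.rpow_natCast ε 2, ← Real.rpow_mul hε.le]; norm_num
      _ ≤ _ := Real.rpow_le_rpow (by positivity) this (by norm_num)
  have h2 : ‖y‖ ^ (5 / 2 : ℝ) ≤ A ε y ^ (5 / 4 : ℝ) := by
    have : ‖y‖ ^ 2 ≤ A ε y := by unfold A; nlinarith [sq_nonneg ε]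
    calc ‖y‖ ^ (5 / 2 : ℝ) = (‖y‖ ^ 2) ^ (5 / 4 : ℝ) := by
          rw [← Real.rpow_natCast ‖y‖ 2, ← Real.rpow_mul hn.le]; norm_num
      _ ≤ _ := Real.rpow_le_rpow (by positivity) this (by norm_num)
  have h3 : A ε y ^ 3 = A ε y ^ (7 / 4 : ℝ) * A ε y ^ (5 / 4 : ℝ) := by
    rw [← Real.rpow_add hA, ← Real.rpow_natCast]; norm_num
  have h4 : ε ^ 4 = √ε * ε ^ (7 / 2 : ℝ) := by
    rw [Real.sqrt_eq_rpow, ← Real.rpow_add hε, ← Real.rpow_natCast]; norm_num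
  have p1 : 0 < ε ^ (7 / 2 : ℝ) := Real.rpow_pos_of_pos hε _
  have p2 : 0 < ‖y‖ ^ (5 / 2 : ℝ) := Real.rpow_pos_of_pos hn _
  rw [h3, h4, Real.rpow_neg hn.le]
  calc √ε * ε ^ (7 / 2 : ℝ) / (A ε y ^ (7 / 4 : ℝ) * A ε y ^ (5 / 4 : ℝ))
      ≤ √ε * ε ^ (7 / 2 : ℝ) / (ε ^ (7 / 2 : ℝ) * ‖y‖ ^ (5 / 2 : ℝ)) := by gcongr
    _ = _ := by field_simp

theorem defect_bound {δ : ℝ} (hδ : 0 < δ) (hδ1 : δ ≤ 1) : ∃ K : ℝ, 0 ≤ K ∧ ∀ ε : ℝ, 0 < ε → ε ≤ δ →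
    ∀ y : E, ‖y‖ < 2 → y ≠ P δ → y ≠ -P δ →
      |6 * Real.exp (4 * W δ ε y) - (rho ε (y - P δ) + rho ε (y + P δ))| ≤
        K * √ε * (‖y - P δ‖ ^ (-(5 / 2 : ℝ)) + ‖y + P δ‖ ^ (-(5 / 2 : ℝ))) := by
  obtain ⟨K, hK, h⟩ := alg hδ hδ1
  refine ⟨96 * K, by positivity, fun ε hε hεδ y hy h1 h2 => ?_⟩
  have s1 := small_pow hε (y - P δ) (sub_ne_zero.2 h1)
  have s2 := small_pow hε (y + P δ) (by rwa [Ne, add_eq_zero_iff_eq_neg])
  have n1 := nsq_sub δ y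
  have n2 := nsq_add δ y
  have n0 := nsq y
  have hP := norm_P hδ
  have m1 : ‖y - P δ‖ ≤ 3 := by linarith [norm_sub_le y (P δ)]
  have m2 : ‖y + P δ‖ ≤ 3 := by linarith [norm_add_le y (P δ)]
  have ha10 : A ε (y - P δ) ≤ 10 := by unfold A; nlinarith [norm_nonneg (y - P δ)]
  have hb10 : A ε (y + P δ) ≤ 10 := by unfold A; nlinarith [norm_nonneg (y + P δ)]
  have hsum : 2 * δ ^ 2 ≤ A ε (y - P δ) + A ε (y + P δ) := by
    unfold A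
    linarith [sq_nonneg ε, sq_nonneg (y 0), sq_nonneg (y 1), sq_nonneg (y 2), sq_nonneg (y 3)]
  have pa := A_pos hε (y - P δ)
  have pb := A_pos hε (y + P δ)
  have q1 : 0 ≤ ‖y - P δ‖ ^ (-(5 / 2 : ℝ)) := Real.rpow_nonneg (norm_nonneg _) _
  have q2 : 0 ≤ ‖y + P δ‖ ^ (-(5 / 2 : ℝ)) := Real.rpow_nonneg (norm_nonneg _) _
  have hsq := Real.sqrt_nonneg ε
  rw [exp_W hε]
  unfold rho
  set X := (ε ^ 2 + 4 * δ ^ 2) * Real.exp (2 / (ε ^ 2 + 4 * δ ^ 2) * (y 0 ^ 2 - δ ^ 2)) with hX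
  set a := A ε (y - P δ) with ha
  set b := A ε (y + P δ) with hb
  have e1 : 96 * ε ^ 4 * (X ^ 4 / (a ^ 4 * b ^ 4)) - (96 * ε ^ 4 / a ^ 4 + 96 * ε ^ 4 / b ^ 4) =
      96 * ε ^ 4 * (X ^ 4 / (a ^ 4 * b ^ 4) - 1 / a ^ 4 - 1 / b ^ 4) := by ring
  rw [e1, abs_mul, abs_of_pos (by positivity : 0 < 96 * ε ^ 4)]
  rcases le_total a b with hab | hab
  · have := h ε (y 0 - δ) a b hε hεδ
      (by rw [ha]; unfold A; linarith [sq_nonneg (y 1), sq_nonneg (y 2), sq_nonneg (y 3)]) ha10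
      (by rw [ha, hb]; unfold A; rw [n1, n2]; ring) hb10 (by linarith)
    rw [sub_add_cancel, ← hX] at this
    calc _ ≤ 96 * ε ^ 4 * (K / a ^ 3) := by gcongr
      _ = 96 * K * (ε ^ 4 / a ^ 3) := by ring
      _ ≤ 96 * K * (√ε * ‖y - P δ‖ ^ (-(5 / 2 : ℝ))) := by gcongr
      _ ≤ _ := by linarith [mul_nonneg (mul_nonneg hK hsq) q2]
  · have := h ε (-y 0 - δ) b a hε hεδ
      (by rw [hb]; unfold A; linarith [sq_nonneg (y 1), sq_nonneg (y 2), sq_nonneg (y 3)]) hb10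
      (by rw [ha, hb]; unfold A; rw [n1, n2]; ring) ha10 (by linarith)
    rw [sub_add_cancel, neg_sq, ← hX, mul_comm (b ^ 4), sub_right_comm] at this
    calc _ ≤ 96 * ε ^ 4 * (K / b ^ 3) := by gcongr
      _ = 96 * K * (ε ^ 4 / b ^ 3) := by ring
      _ ≤ 96 * K * (√ε * ‖y + P δ‖ ^ (-(5 / 2 : ℝ))) := by gcongr
      _ ≤ _ := by linarith [mul_nonneg (mul_nonneg hK hsq) q1]

end Pool.Agent.H196Z.QC
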