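import Mathlib

set_option autoImplicit false

open scoped ContDiff InnerProductSpace
open MeasureTheory

namespace Pool.Agent.H196Z.QC

abbrev E := EuclideanSpace ℝ (Fin 4)

noncomputable abbrev e (i : Fin 4) : E := EuclideanSpace.single i (1 : ℝ)

/-- directional derivative -/
noncomputable def pd (v : E) (f : E → ℝ) : E → ℝ := fun x => fderiv ℝ f x v

/-- the Laplacian -/
noncomputable def lap (f : E → ℝ) : E → ℝ := fun x => ∑ i : Fin 4, pd (e i) (pd (e i) f) x

theorem pd_smooth {f : E → ℝ} (hf : ContDiff ℝ ∞ f) (v : E) : ContDiff ℝ ∞ (pd v f) := by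
  unfold pd
  exact (hf.fderiv_right (m := ∞) (by simp)).clm_apply contDiff_const

theorem lap_smooth {f : E → ℝ} (hf : ContDiff ℝ ∞ f) : ContDiff ℝ ∞ (lap f) := by
  unfold lap
  exact ContDiff.sum fun i _ => pd_smooth (pd_smooth hf _) _

theorem sdiff {f : E → ℝ} (hf : ContDiff ℝ ∞ f) : Differentiable ℝ f :=
  hf.differentiable (by simp)

theorem iter_succ {f : E → ℝ} (hf : ContDiff ℝ ∞ f) (n : ℕ) (m : Fin (n + 1) → E) (x : E) :
    iteratedFDeriv ℝ (n + 1) f x m = pd (m 0) (fun y => iteratedFDeriv ℝ n f y (Fin.tail m)) x := by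
  have hd : DifferentiableAt ℝ (iteratedFDeriv ℝ n f) x :=
    (hf.differentiable_iteratedFDeriv (by exact_mod_cast ENat.natCast_lt_top n)) x
  rw [hd.iteratedFDeriv_succ_apply_left']
  rfl

theorem iter_four {f : E → ℝ} (hf : ContDiff ℝ ∞ f) (a b c d : E) (x : E) :
    iteratedFDeriv ℝ 4 f x ![a, b, c, d] = pd a (pd b (pd c (pd d f))) x := by
  rw [iter_succ hf]
  congr 2
  funext y
  rw [iter_succ hf]
  congr 2
  funext y
  rw [iter_succ hf]
  congr 2
  funext y
  rw [iter_succ hf]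
  simp only [iteratedFDeriv_zero_apply]
  rfl

theorem pd_add {f g : E → ℝ} (hf : ContDiff ℝ ∞ f) (hg : ContDiff ℝ ∞ g) (v : E) :
    pd v (fun x => f x + g x) = fun x => pd v f x + pd v g x := by
  funext x
  unfold pd
  rw [fderiv_fun_add (sdiff hf x) (sdiff hg x)]
  rfl

theorem pd_sum {f : Fin 4 → E → ℝ} (hf : ∀ i, ContDiff ℝ ∞ (f i)) (v : E) :
    pd v (fun x => ∑ i, f i x) = fun x => ∑ i, pd v (f i) x := by
  funext x
  unfold pd
  rw [fderiv_fun_sum (fun i _ => sdiff (hf i) x)]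
  simp

theorem pd_cmul {f : E → ℝ} (hf : ContDiff ℝ ∞ f) (c : ℝ) (v : E) :
    pd v (fun x => c * f x) = fun x => c * pd v f x := by
  funext x
  unfold pd
  rw [fderiv_const_mul (sdiff hf x)]
  rfl

theorem pd_const (c : ℝ) (v : E) : pd v (fun _ => c) = fun _ => 0 := by
  funext x
  simp [pd]

theorem pd_shift (f : E → ℝ) (P v : E) : pd v (fun x => f (x - P)) = fun x => pd v f (x - P) := by
  funext x
  unfold pd
  rw [fderiv_comp_sub]

theorem lap_add {f g : E → ℝ} (hf : ContDiff ℝ ∞ f) (hg : ContDiff ℝ ∞ g) :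
    lap (fun x => f x + g x) = fun x => lap f x + lap g x := by
  funext x
  unfold lap
  rw [← Finset.sum_add_distrib]
  refine Finset.sum_congr rfl fun i _ => ?_
  rw [pd_add hf hg, pd_add (pd_smooth hf _) (pd_smooth hg _)]

theorem lap_cmul {f : E → ℝ} (hf : ContDiff ℝ ∞ f) (c : ℝ) :
    lap (fun x => c * f x) = fun x => c * lap f x := by
  funext x
  unfold lap
  rw [Finset.mul_sum]
  refine Finset.sum_congr rfl fun i _ => ?_
  rw [pd_cmul hf, pd_cmul (pd_smooth hf _)]

theorem lap_const (c : ℝ) : lap (fun _ => c) = fun _ => 0 := by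
  funext x
  simp [lap, pd_const]

theorem lap_shift (f : E → ℝ) (P : E) : lap (fun x => f (x - P)) = fun x => lap f (x - P) := by
  funext x
  unfold lap
  refine Finset.sum_congr rfl fun i _ => ?_
  rw [pd_shift, pd_shift]

theorem bilap {f : E → ℝ} (hf : ContDiff ℝ ∞ f) (x : E) :
    ∑ i : Fin 4, ∑ j : Fin 4, iteratedFDeriv ℝ 4 f x ![e i, e i, e j, e j] = lap (lap f) x := by
  simp only [iter_four hf]
  unfold lap
  refine Finset.sum_congr rfl fun i _ => ?_
  rw [pd_sum (fun j => pd_smooth (pd_smooth hf _) _),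
    pd_sum (fun j => pd_smooth (pd_smooth (pd_smooth hf _) _) _)]

/-- `ε² + |x|²` -/
noncomputable def A (ε : ℝ) (x : E) : ℝ := ε ^ 2 + ‖x‖ ^ 2

theorem A_pos {ε : ℝ} (hε : 0 < ε) (x : E) : 0 < A ε x := by unfold A; positivity

theorem A_smooth (ε : ℝ) : ContDiff ℝ ∞ (A ε) := by
  unfold A
  exact contDiff_const.add (contDiff_norm_sq ℝ)

theorem A_hasFDerivAt (ε : ℝ) (x : E) :
    HasFDerivAt (A ε) ((2 : ℝ) • innerSL ℝ x) x := by
  have h := (hasStrictFDerivAt_norm_sq x).hasFDerivAt.const_add (ε ^ 2)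
  refine HasFDerivAt.congr_fderiv h ?_
  ext v
  simp

theorem pd_rad {ε : ℝ} (hε : 0 < ε) {φ φ' : ℝ → ℝ} (h : ∀ t, 0 < t → HasDerivAt φ (φ' t) t)
    (v : E) : pd v (fun x => φ (A ε x)) = fun x => φ' (A ε x) * (2 * ⟪x, v⟫_ℝ) := by
  funext x
  have := (h _ (A_pos hε x)).comp_hasFDerivAt x (A_hasFDerivAt ε x)
  unfold pd
  rw [show (fun x => φ (A ε x)) = φ ∘ A ε from rfl, this.fderiv]
  simp

theorem lap_rad {ε : ℝ} (hε : 0 < ε) {φ φ' φ'' : ℝ → ℝ} (h : ∀ t, 0 < t → HasDerivAt φ (φ' t) t)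
    (h' : ∀ t, 0 < t → HasDerivAt φ' (φ'' t) t) :
    lap (fun x => φ (A ε x)) =
      fun x => 4 * φ'' (A ε x) * (A ε x - ε ^ 2) + 8 * φ' (A ε x) := by
  funext x
  unfold lap
  have key : ∀ v : E, pd v (pd v (fun x => φ (A ε x))) x =
      4 * φ'' (A ε x) * ⟪x, v⟫_ℝ ^ 2 + 2 * φ' (A ε x) * ⟪v, v⟫_ℝ := by
    intro v
    rw [pd_rad hε h]
    have h1 := (h' _ (A_pos hε x)).comp_hasFDerivAt x (A_hasFDerivAt ε x)
    have h2 : HasFDerivAt (fun x : E => 2 * ⟪x, v⟫_ℝ) ((2 : ℝ) • innerSL ℝ v) x := by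
      have := ((innerSL ℝ v).hasFDerivAt (x := x)).const_mul 2
      refine (HasFDerivAt.congr_fderiv this rfl).congr_of_eventuallyEq
        (Filter.Eventually.of_forall fun y => ?_)
      simp [real_inner_comm]
    have h3 := h1.mul h2
    unfold pd
    rw [show (fun x => φ' (A ε x) * (2 * ⟪x, v⟫_ℝ)) =
      (φ' ∘ A ε) * (fun x : E => 2 * ⟪x, v⟫_ℝ) from rfl, h3.fderiv]
    simp [real_inner_comm]
    ring
  simp only [key]
  rw [Finset.sum_add_distrib, ← Finset.mul_sum, ← Finset.mul_sum]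
  have h1 : ∑ i : Fin 4, ⟪x, e i⟫_ℝ ^ 2 = ‖x‖ ^ 2 := by
    rw [EuclideanSpace.real_norm_sq_eq]
    simp [EuclideanSpace.inner_single_right]
  have h2 : ∑ i : Fin 4, ⟪e i, e i⟫_ℝ = 4 := by
    simp
  rw [h1, h2]
  unfold A
  ring

/-- the bubble potential -/
noncomputable def bub (ε : ℝ) (x : E) : ℝ := -Real.log (A ε x)

/-- the bubble density -/
noncomputable def rho (ε : ℝ) (x : E) : ℝ := 96 * ε ^ 4 / (A ε x) ^ 4

theorem bub_smooth {ε : ℝ} (hε : 0 < ε) : ContDiff ℝ ∞ (bub ε) := by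
  unfold bub
  exact ((A_smooth ε).log (fun x => (A_pos hε x).ne')).neg

theorem rho_smooth {ε : ℝ} (hε : 0 < ε) : ContDiff ℝ ∞ (rho ε) := by
  unfold rho
  exact contDiff_const.div ((A_smooth ε).pow 4) (fun x => pow_ne_zero _ (A_pos hε x).ne')

theorem rho_pos {ε : ℝ} (hε : 0 < ε) (x : E) : 0 < rho ε x := by
  unfold rho
  have := A_pos hε x
  positivity

theorem hasDeriv_inv_pow (c : ℝ) (n : ℕ) (t : ℝ) (ht : 0 < t) :
    HasDerivAt (fun s : ℝ => c / s ^ (n + 1)) (-(c * (n + 1)) / t ^ (n + 2)) t := by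
  have h := ((hasDerivAt_pow (n + 1) t).inv (pow_ne_zero _ ht.ne')).const_mul c
  refine (h.congr_deriv ?_).congr_of_eventuallyEq (Filter.Eventually.of_forall fun s => ?_)
  · simp only [Nat.add_sub_cancel]
    field_simp
    push_cast
    ring
  · simp [div_eq_mul_inv]

theorem pd_bub {ε : ℝ} (hε : 0 < ε) (v : E) :
    pd v (bub ε) = fun x => (-1 / A ε x) * (2 * ⟪x, v⟫_ℝ) := by
  have h : ∀ t : ℝ, 0 < t → HasDerivAt (fun s => -Real.log s) (-1 / t) t := by
    intro t ht
    have := (Real.hasDerivAt_log ht.ne').neg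
    refine this.congr_deriv ?_
    field_simp
  exact pd_rad hε h v

theorem lap_bub {ε : ℝ} (hε : 0 < ε) :
    lap (bub ε) = fun x => -4 / (A ε x) ^ 1 + -4 * ε ^ 2 / (A ε x) ^ 2 := by
  have h : ∀ t : ℝ, 0 < t → HasDerivAt (fun s => -Real.log s) (-1 / t ^ 1) t := by
    intro t ht
    have := (Real.hasDerivAt_log ht.ne').neg
    refine this.congr_deriv ?_
    field_simp
  have h' : ∀ t : ℝ, 0 < t → HasDerivAt (fun s : ℝ => -1 / s ^ 1) (1 / t ^ 2) t := by
    intro t ht
    have := hasDeriv_inv_pow (-1) 0 t ht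
    refine this.congr_deriv ?_
    simp
  have := lap_rad hε h h'
  unfold bub
  rw [this]
  funext x
  have := (A_pos hε x).ne'
  field_simp
  ring

theorem bilap_bub {ε : ℝ} (hε : 0 < ε) : lap (lap (bub ε)) = rho ε := by
  rw [lap_bub hε]
  have h : ∀ t : ℝ, 0 < t → HasDerivAt (fun s : ℝ => -4 / s ^ 1 + -4 * ε ^ 2 / s ^ 2)
      (4 / t ^ 2 + 8 * ε ^ 2 / t ^ 3) t := by
    intro t ht
    have := (hasDeriv_inv_pow (-4) 0 t ht).add (hasDeriv_inv_pow (-4 * ε ^ 2) 1 t ht)
    refine this.congr_deriv ?_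
    push_cast
    ring
  have h' : ∀ t : ℝ, 0 < t → HasDerivAt (fun s : ℝ => 4 / s ^ 2 + 8 * ε ^ 2 / s ^ 3)
      (-8 / t ^ 3 + -24 * ε ^ 2 / t ^ 4) t := by
    intro t ht
    have := (hasDeriv_inv_pow 4 1 t ht).add (hasDeriv_inv_pow (8 * ε ^ 2) 2 t ht)
    refine this.congr_deriv ?_
    push_cast
    ring
  have := lap_rad hε h h'
  rw [this]
  funext x
  have := (A_pos hε x).ne'
  unfold rho
  field_simp
  ring

theorem sq_smooth : ContDiff ℝ ∞ (fun x : E => x 0 ^ 2) := by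
  have : ContDiff ℝ ∞ (fun x : E => x 0) := by fun_prop
  exact this.pow 2

theorem lap_sq : lap (fun x : E => x 0 ^ 2) = fun _ => 2 := by
  have h0 : ∀ x : E, HasFDerivAt (fun x : E => x 0) (EuclideanSpace.proj (𝕜 := ℝ) (0 : Fin 4)) x :=
    fun x => (EuclideanSpace.proj (𝕜 := ℝ) (0 : Fin 4)).hasFDerivAt
  have h1 : ∀ v : E, pd v (fun x : E => x 0 ^ 2) = fun x => (2 * v 0) * x 0 := by
    intro v
    funext x
    unfold pd
    rw [((h0 x).pow 2).fderiv]
    simp
    ring
  have h2 : ∀ v : E, pd v (fun x : E => x 0) = fun _ => v 0 := by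
    intro v
    funext x
    unfold pd
    rw [(h0 x).fderiv]
    simp
  funext x
  unfold lap
  have h3 : ContDiff ℝ ∞ (fun x : E => x 0) := by fun_prop
  simp only [h1, pd_cmul h3, h2]
  simp

/-- convolution with a compactly supported weight -/
noncomputable def conv (g φ : E → ℝ) : E → ℝ := fun x => ∫ y, g y * φ (x - y)

theorem conv_smooth {g φ : E → ℝ} (hg : ContDiff ℝ ∞ g) (hc : HasCompactSupport g)
    (hφ : Continuous φ) : ContDiff ℝ ∞ (conv g φ) :=
  hc.contDiff_convolution_left (ContinuousLinearMap.mul ℝ ℝ) (μ := volume) hg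
    hφ.locallyIntegrable

theorem conv_int {g φ : E → ℝ} (hg : Continuous g) (hc : HasCompactSupport g)
    (hφ : Continuous φ) (x : E) : Integrable (fun y => g y * φ (x - y)) :=
  (hg.mul (hφ.comp (continuous_const.sub continuous_id))).integrable_of_hasCompactSupport
    hc.mul_right

theorem pd_conv {g φ : E → ℝ} (hg : Continuous g) (hc : HasCompactSupport g)
    (hφ : ContDiff ℝ ∞ φ) (v : E) : pd v (conv g φ) = conv g (pd v φ) := by
  funext x
  have hD : Continuous (fderiv ℝ φ) := hφ.continuous_fderiv (by simp)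
  have hK : IsCompact ((fun p : E × E => p.1 - p.2) '' (Metric.closedBall x 1 ×ˢ tsupport g)) :=
    ((isCompact_closedBall x 1).prod hc).image (by fun_prop)
  obtain ⟨M, hM⟩ := hK.exists_bound_of_continuousOn hD.continuousOn
  have hint : Integrable (fun y => g y • fderiv ℝ φ (x - y)) :=
    (hg.smul (hD.comp (continuous_const.sub continuous_id))).integrable_of_hasCompactSupport
      hc.smul_right
  have h := hasFDerivAt_integral_of_dominated_of_fderiv_le (𝕜 := ℝ) (μ := volume)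
    (F := fun x y => g y * φ (x - y)) (F' := fun x y => g y • fderiv ℝ φ (x - y))
    (bound := fun y => ‖g y‖ * M) (x₀ := x) (s := Metric.closedBall x 1)
    (Metric.closedBall_mem_nhds x one_pos)
    (Filter.Eventually.of_forall fun x' =>
      (conv_int hg hc hφ.continuous x').aestronglyMeasurable)
    (conv_int hg hc hφ.continuous x) hint.aestronglyMeasurable
    (Filter.Eventually.of_forall fun y x' hx' => by
      rw [norm_smul]
      by_cases hy : y ∈ tsupport g
      · exact mul_le_mul_of_nonneg_left (hM _ ⟨(x', y), ⟨hx', hy⟩, rfl⟩) (norm_nonneg _)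
      · simp [image_eq_zero_of_notMem_tsupport hy])
    ((hg.norm.mul continuous_const).integrable_of_hasCompactSupport hc.norm.mul_right)
    (Filter.Eventually.of_forall fun y x' _ => by
      have h1 : HasFDerivAt (fun x => φ (x - y)) (fderiv ℝ φ (x' - y)) x' := by
        have := (sdiff hφ (x' - y)).hasFDerivAt.comp x' ((hasFDerivAt_id x').sub_const y)
        exact this.congr_fderiv (by simp)
      exact h1.const_mul (g y))
  unfold pd conv
  rw [h.fderiv, ContinuousLinearMap.integral_apply hint]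
  simp

theorem lap_conv {g φ : E → ℝ} (hg : Continuous g) (hc : HasCompactSupport g)
    (hφ : ContDiff ℝ ∞ φ) : lap (conv g φ) = conv g (lap φ) := by
  funext x
  unfold lap
  simp only [pd_conv hg hc hφ, pd_conv hg hc (pd_smooth hφ _)]
  unfold conv
  rw [← integral_finsetSum _
    (fun i _ => conv_int hg hc (pd_smooth (pd_smooth hφ _) _).continuous x)]
  simp only [Finset.mul_sum]

end Pool.Agent.H196Z.QC
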