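import Pool.Agent.H196Z.QC.Calc

set_option autoImplicit false

open scoped ContDiff InnerProductSpace
open MeasureTheory Real Filter Topology Set Metric

namespace Pool.Agent.H196Z.QC

theorem finrank_E : Module.finrank ℝ E = 4 := by simp

theorem rho_one_le (z : E) : rho 1 z * (1 + ‖z‖) ≤ 192 * (1 + ‖z‖ ^ 2) ^ (-(7 : ℝ) / 2) := by
  have hA : 0 < 1 + ‖z‖ ^ 2 := by positivity
  have h1 : (1 + ‖z‖ ^ 2) ^ (-(7 : ℝ) / 2) =
      (1 + ‖z‖ ^ 2) ^ ((1 : ℝ) / 2) / (1 + ‖z‖ ^ 2) ^ 4 := by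
    rw [← Real.rpow_natCast (1 + ‖z‖ ^ 2) 4, ← Real.rpow_sub hA]
    norm_num
  have h2 : 1 + ‖z‖ ≤ 2 * (1 + ‖z‖ ^ 2) ^ ((1 : ℝ) / 2) := by
    rw [← Real.sqrt_eq_rpow]
    have a1 : 1 ≤ √(1 + ‖z‖ ^ 2) := Real.le_sqrt_of_sq_le (by nlinarith [norm_nonneg z])
    have a2 : ‖z‖ ≤ √(1 + ‖z‖ ^ 2) := Real.le_sqrt_of_sq_le (by nlinarith)
    linarith
  rw [h1]
  unfold rho A
  simp only [one_pow, mul_one]
  rw [div_mul_eq_mul_div, ← mul_div_assoc]
  apply div_le_div_of_nonneg_right _ (by positivity)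
  linarith

theorem jap_int : Integrable (fun z : E => 192 * (1 + ‖z‖ ^ 2) ^ (-(7 : ℝ) / 2)) :=
  (integrable_rpow_neg_one_add_norm_sq (by rw [finrank_E]; norm_num)).const_mul _

theorem rho_one_int : Integrable (rho 1) := by
  refine jap_int.mono' (rho_smooth one_pos).continuous.aestronglyMeasurable
    (Eventually.of_forall fun z => ?_)
  have := rho_one_le z
  have h := rho_pos one_pos z
  rw [Real.norm_of_nonneg h.le]
  nlinarith [norm_nonneg z]

theorem rho_one_mom : Integrable (fun z => rho 1 z * ‖z‖) := by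
  refine jap_int.mono' ((rho_smooth one_pos).continuous.mul continuous_norm).aestronglyMeasurable
    (Eventually.of_forall fun z => ?_)
  have := rho_one_le z
  have h := rho_pos one_pos z
  rw [Real.norm_of_nonneg (mul_nonneg h.le (norm_nonneg _))]
  nlinarith [norm_nonneg z]

theorem radial_integral : ∫ y in Ioi (0 : ℝ), y ^ 3 * (96 / (1 + y ^ 2) ^ 4) = 8 := by
  have hd : ∀ y ∈ Ici (0 : ℝ), HasDerivAt (fun y : ℝ => -24 / (1 + y ^ 2) ^ 2 + 16 / (1 + y ^ 2) ^ 3)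
      (y ^ 3 * (96 / (1 + y ^ 2) ^ 4)) y := by
    intro y _
    have hp : 0 < 1 + y ^ 2 := by positivity
    have h0 : HasDerivAt (fun y : ℝ => 1 + y ^ 2) (2 * y) y := by
      simpa using (hasDerivAt_pow 2 y).const_add 1
    have h1 := ((hasDeriv_inv_pow (-24) 1 _ hp).add (hasDeriv_inv_pow 16 2 _ hp)).comp y h0
    refine h1.congr_deriv ?_
    push_cast
    field_simp
    ring
  have ht : Tendsto (fun y : ℝ => 1 + y ^ 2) atTop atTop :=
    tendsto_atTop_add_const_left _ _ (tendsto_pow_atTop (by norm_num))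
  have hl : Tendsto (fun y : ℝ => -24 / (1 + y ^ 2) ^ 2 + 16 / (1 + y ^ 2) ^ 3) atTop (𝓝 0) := by
    have a := ((tendsto_pow_atTop (n := 2) (by norm_num)).comp ht).const_div_atTop (-24)
    have b := ((tendsto_pow_atTop (n := 3) (by norm_num)).comp ht).const_div_atTop 16
    simpa using a.add b
  rw [integral_Ioi_of_hasDerivAt_of_nonneg' hd (fun y hy => by have : 0 < y := hy; positivity) hl]
  norm_num

theorem rho_one_mass : ∫ z, rho 1 z = 16 * π ^ 2 := by
  have h := integral_fun_norm_addHaar (volume : Measure E) (fun y : ℝ => 96 / (1 + y ^ 2) ^ 4)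
  have h1 : (fun z => rho 1 z) = fun z : E => 96 / (1 + ‖z‖ ^ 2) ^ 4 := by
    funext z; simp [rho, A]
  rw [h1, h, finrank_E]
  have h2 : (volume : Measure E).real (ball 0 1) = π ^ 2 / 2 := by
    rw [measureReal_def, InnerProductSpace.volume_ball_of_dim_even (k := 2) (by simp)]
    simp
    positivity
  rw [h2]
  simp only [smul_eq_mul, Nat.add_one_sub_one, nsmul_eq_mul]
  rw [radial_integral]
  push_cast
  ring

theorem rho_scale {ε : ℝ} (hε : 0 < ε) (z : E) : rho ε (ε • z) = rho 1 z / ε ^ 4 := by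
  unfold rho A
  rw [norm_smul, Real.norm_of_nonneg hε.le]
  have : 0 < 1 + ‖z‖ ^ 2 := by positivity
  field_simp

theorem integral_rho {ε : ℝ} (hε : 0 < ε) (f : E → ℝ) :
    ∫ z, rho ε z * f z = ∫ z, rho 1 z * f (ε • z) := by
  have h := Measure.integral_comp_smul (volume : Measure E) (fun z => rho ε z * f z) ε
  rw [finrank_E, abs_of_pos (by positivity)] at h
  simp only [rho_scale hε, smul_eq_mul] at h
  have h2 : ∫ z, rho 1 z / ε ^ 4 * f (ε • z) = (ε ^ 4)⁻¹ * ∫ z, rho 1 z * f (ε • z) := by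
    rw [← integral_const_mul]
    congr 1
    funext z
    ring
  rw [h2] at h
  exact (mul_left_cancel₀ (by positivity) h).symm

theorem rho_int {ε : ℝ} (hε : 0 < ε) : Integrable (rho ε) := by
  have h : Integrable (fun z => rho ε (ε • z)) := by
    simp only [rho_scale hε]
    exact rho_one_int.div_const _
  exact (integrable_comp_smul_iff (volume : Measure E) (rho ε) hε.ne').1 h

theorem rho_mass {ε : ℝ} (hε : 0 < ε) : ∫ z, rho ε z = 16 * π ^ 2 := by
  have := integral_rho hε (fun _ => 1)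
  simpa [rho_one_mass] using this

theorem conv_rho {η : ℝ} (hη : 0 < η) (g : E → ℝ) (x : E) :
    conv g (rho η) x = ∫ z, rho 1 z * g (x - η • z) := by
  unfold conv
  rw [← integral_rho hη (fun z => g (x - z)),
    ← integral_sub_left_eq_self (fun z => rho η z * g (x - z)) volume x]
  simp [mul_comm]

/-- the tail of a bubble -/
theorem rho_tail {ε r : ℝ} (hε : 0 < ε) (hr : 0 < r) (z : E) (hz : r ≤ ‖z‖) :
    rho ε z ≤ ε ^ 4 * (1 + 1 / r ^ 2) ^ 4 * rho 1 z := by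
  unfold rho A
  have hz0 : 0 < ‖z‖ := lt_of_lt_of_le hr hz
  have h1 : 1 + ‖z‖ ^ 2 ≤ (1 + 1 / r ^ 2) * (ε ^ 2 + ‖z‖ ^ 2) := by
    have : 1 ≤ 1 / r ^ 2 * ‖z‖ ^ 2 := by
      rw [div_mul_eq_mul_div, le_div_iff₀ (by positivity)]
      nlinarith
    have : 0 ≤ (1 + 1 / r ^ 2) * ε ^ 2 := by positivity
    nlinarith
  have h2 : (1 + ‖z‖ ^ 2) ^ 4 ≤ ((1 + 1 / r ^ 2) * (ε ^ 2 + ‖z‖ ^ 2)) ^ 4 :=
    pow_le_pow_left₀ (by positivity) h1 4
  rw [mul_pow] at h2
  simp only [one_pow, mul_one]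
  rw [← mul_div_assoc, div_le_div_iff₀ (by positivity) (by positivity)]
  have h3 : 0 ≤ 96 * ε ^ 4 := by positivity
  nlinarith [mul_le_mul_of_nonneg_left h2 h3]

/-- the singular majorant -/
noncomputable def S (z : E) : ℝ := (ball (0 : E) 3).indicator (fun z => ‖z‖ ^ (-(7 / 2 : ℝ))) z

theorem S_nonneg (z : E) : 0 ≤ S z :=
  indicator_nonneg (fun _ _ => Real.rpow_nonneg (norm_nonneg _) _) z

theorem S_int : Integrable S := by
  unfold S
  rw [integrable_indicator_iff measurableSet_ball]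
  refine integrableOn_ball_of_norm_le_rpow (C := 1) (α := 7 / 2) (by simp) (by simp; norm_num)
    (Eventually.of_forall fun z => ?_) (Measurable.aestronglyMeasurable (by fun_prop))
  rw [Real.norm_of_nonneg (Real.rpow_nonneg (norm_nonneg _) _), one_mul]

theorem S_prod {a b : E} (ha : a ≠ 0) (hb : b ≠ 0) (ha3 : ‖a‖ < 3) (hb3 : ‖b‖ < 3) :
    ‖a‖⁻¹ * ‖b‖ ^ (-(5 / 2 : ℝ)) ≤ S a + S b := by
  have ha' : 0 < ‖a‖ := norm_pos_iff.2 ha
  have hb' : 0 < ‖b‖ := norm_pos_iff.2 hb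
  have e1 : S a = ‖a‖ ^ (-(7 / 2 : ℝ)) := indicator_of_mem (by simpa using ha3) _
  have e2 : S b = ‖b‖ ^ (-(7 / 2 : ℝ)) := indicator_of_mem (by simpa using hb3) _
  have sp : ∀ t : ℝ, 0 < t → t ^ (-(7 / 2 : ℝ)) = t⁻¹ * t ^ (-(5 / 2 : ℝ)) := by
    intro t ht
    rw [← Real.rpow_neg_one, ← Real.rpow_add ht]
    norm_num
  rcases le_total ‖a‖ ‖b‖ with h | h
  · have : ‖b‖ ^ (-(5 / 2 : ℝ)) ≤ ‖a‖ ^ (-(5 / 2 : ℝ)) :=
      Real.rpow_le_rpow_of_nonpos ha' h (by norm_num)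
    have h2 := mul_le_mul_of_nonneg_left this (inv_nonneg.2 ha'.le)
    rw [← sp _ ha', ← e1] at h2
    linarith [S_nonneg b]
  · have : ‖a‖⁻¹ ≤ ‖b‖⁻¹ := inv_anti₀ hb' h
    have h2 := mul_le_mul_of_nonneg_right this (Real.rpow_nonneg hb'.le (-(5 / 2 : ℝ)))
    rw [← sp _ hb', ← e2] at h2
    linarith [S_nonneg a]

/-- potential estimate -/
theorem pot_bound {g k : E → ℝ} {P : E} {c τ : ℝ} (hc : 0 ≤ c) (hτ : 0 ≤ τ) (hP : ‖P‖ ≤ 1)
    (hg0 : ∀ y, 2 ≤ ‖y‖ → g y = 0)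
    (hg : ∀ y, ‖y‖ < 2 → y ≠ P → y ≠ -P →
      |g y| ≤ τ * (‖y - P‖ ^ (-(5 / 2 : ℝ)) + ‖y + P‖ ^ (-(5 / 2 : ℝ))))
    (hk : ∀ z, z ≠ 0 → ‖z‖ < 3 → |k z| ≤ c * ‖z‖⁻¹) (x : E) (hx : ‖x‖ < 1) :
    |conv g k x| ≤ c * τ * (4 * ∫ z, S z) := by
  have i1 : Integrable (fun y => S (x - y)) := S_int.comp_sub_left x
  have i2 : Integrable (fun y => S (y - P)) := S_int.comp_sub_right P
  have i3 : Integrable (fun y => S (y + P)) := S_int.comp_add_right P
  have hI : ∫ y, c * τ * (2 * S (x - y) + S (y - P) + S (y + P)) = c * τ * (4 * ∫ z, S z) := by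
    have i4 : Integrable (fun y => 2 * S (x - y) + S (y - P)) := (i1.const_mul 2).add i2
    rw [integral_const_mul, integral_add i4 i3,
      integral_add (i1.const_mul 2) i2, integral_const_mul, integral_sub_left_eq_self,
      integral_sub_right_eq_self, integral_add_right_eq_self]
    ring
  rw [← hI, ← Real.norm_eq_abs]
  unfold conv
  refine norm_integral_le_of_norm_le ((((i1.const_mul 2).add i2).add i3).const_mul _) ?_
  have ae1 : ∀ a : E, ∀ᵐ y : E, y ≠ a := fun a => by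
    simp [ae_iff]
  filter_upwards [ae1 x, ae1 P, ae1 (-P)] with y h1 h2 h3
  have n1 := S_nonneg (x - y)
  have n2 := S_nonneg (y - P)
  have n3 := S_nonneg (y + P)
  by_cases hy : ‖y‖ < 2
  · have hxy : x - y ≠ 0 := sub_ne_zero.2 h1.symm
    have hxy3 : ‖x - y‖ < 3 := by linarith [norm_sub_le x y]
    have hyP : y - P ≠ 0 := sub_ne_zero.2 h2
    have hyP' : y + P ≠ 0 := by rwa [Ne, add_eq_zero_iff_eq_neg]
    have hyP3 : ‖y - P‖ < 3 := by linarith [norm_sub_le y P]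
    have hyP3' : ‖y + P‖ < 3 := by linarith [norm_add_le y P]
    have b1 := S_prod hxy hyP hxy3 hyP3
    have b2 := S_prod hxy hyP' hxy3 hyP3'
    rw [Real.norm_eq_abs, abs_mul]
    calc |g y| * |k (x - y)|
        ≤ (τ * (‖y - P‖ ^ (-(5 / 2 : ℝ)) + ‖y + P‖ ^ (-(5 / 2 : ℝ)))) * (c * ‖x - y‖⁻¹) :=
          mul_le_mul (hg y hy h2 h3) (hk _ hxy hxy3) (abs_nonneg _) (by positivity)
      _ = c * τ * (‖x - y‖⁻¹ * ‖y - P‖ ^ (-(5 / 2 : ℝ)) +
          ‖x - y‖⁻¹ * ‖y + P‖ ^ (-(5 / 2 : ℝ))) := by ring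
      _ ≤ _ := mul_le_mul_of_nonneg_left (by linarith) (by positivity)
  · rw [hg0 y (not_lt.1 hy)]
    simp only [zero_mul, norm_zero]
    positivity

theorem bub_bound {η : ℝ} (hη : 0 < η) (hη1 : η ≤ 1) (z : E) (hz : z ≠ 0) (hz3 : ‖z‖ < 3) :
    |bub η z| ≤ 27 * ‖z‖⁻¹ := by
  have hn : 0 < ‖z‖ := norm_pos_iff.2 hz
  have hA := A_pos hη z
  have h3 : 1 / 3 ≤ ‖z‖⁻¹ := by
    rw [one_div]; exact inv_anti₀ hn hz3.le
  unfold bub
  rw [abs_neg, abs_le]
  constructor
  · have h1 : Real.log (‖z‖ ^ 2) ≤ Real.log (A η z) :=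
      Real.log_le_log (by positivity) (by unfold A; nlinarith [sq_nonneg η])
    rw [Real.log_pow] at h1
    have h2 := Real.log_le_sub_one_of_pos (inv_pos.2 hn)
    rw [Real.log_inv] at h2
    push_cast at h1
    linarith
  · have h1 := Real.log_le_sub_one_of_pos hA
    have h2 : A η z ≤ 10 := by unfold A; nlinarith
    linarith

theorem pd_bub_bound {η : ℝ} (hη : 0 < η) (v z : E) (hz : z ≠ 0) :
    |pd v (bub η) z| ≤ (2 * ‖v‖) * ‖z‖⁻¹ := by
  have hn : 0 < ‖z‖ := norm_pos_iff.2 hz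
  have hA := A_pos hη z
  rw [pd_bub hη]
  simp only
  rw [abs_mul, abs_mul, abs_div, abs_neg, abs_one, abs_of_pos hA, abs_two]
  have h1 := abs_real_inner_le_norm z v
  have h2 : ‖z‖ ^ 2 ≤ A η z := by unfold A; nlinarith [sq_nonneg η]
  calc 1 / A η z * (2 * |⟪z, v⟫_ℝ|) ≤ 1 / ‖z‖ ^ 2 * (2 * (‖z‖ * ‖v‖)) := by gcongr
    _ = _ := by field_simp

/-- the approximate identity converges in `C¹` -/
theorem approx_id {g : E → ℝ} (hg : ContDiff ℝ ∞ g) (hc : HasCompactSupport g) :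
    ∃ L : ℝ, 0 ≤ L ∧ ∀ η : ℝ, 0 < η → ∀ x : E,
      |(16 * π ^ 2)⁻¹ * conv g (rho η) x - g x| ≤ L * η ∧
      ‖fderiv ℝ (fun x => (16 * π ^ 2)⁻¹ * conv g (rho η) x - g x) x‖ ≤ L * η := by
  obtain ⟨L1, hL1⟩ := hg.lipschitzWith_of_hasCompactSupport hc (by simp)
  obtain ⟨L2, hL2⟩ := (hg.fderiv_right (m := ∞) (by simp)).lipschitzWith_of_hasCompactSupport
    (hc.fderiv ℝ) (by simp)
  obtain ⟨M, hM⟩ := hc.exists_bound_of_continuous hg.continuous
  set m := ∫ z, rho 1 z * ‖z‖ with hm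
  have hm0 : 0 ≤ m := integral_nonneg fun z => mul_nonneg (rho_pos one_pos z).le (norm_nonneg _)
  have hpi : 0 < 16 * π ^ 2 := by positivity
  refine ⟨(16 * π ^ 2)⁻¹ * ((L1 + L2) * m), by positivity, fun η hη x => ?_⟩
  have hint : ∀ x : E, Integrable (fun z => rho 1 z * g (x - η • z)) := fun x =>
    rho_one_int.mul_bdd (c := M) (by
      have := hg.continuous
      exact Continuous.aestronglyMeasurable (by fun_prop))
      (Eventually.of_forall fun z => hM _)
  have hrep : ∀ x : E, (16 * π ^ 2)⁻¹ * conv g (rho η) x - g x =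
      (16 * π ^ 2)⁻¹ * ∫ z, rho 1 z * (g (x - η • z) - g x) := by
    intro x
    simp only [mul_sub]
    rw [integral_sub (hint x) (rho_one_int.mul_const _), integral_mul_const, rho_one_mass,
      conv_rho hη]
    field_simp
  have hint2 : ∀ x : E, Integrable (fun z => rho 1 z * (g (x - η • z) - g x)) := fun x => by
    simp only [mul_sub]
    exact (hint x).sub (rho_one_int.mul_const _)
  have hbd : ∀ (f : E → ℝ) (K : ℝ), (∀ z, |f z| ≤ K * ‖z‖) →
      |∫ z, rho 1 z * f z| ≤ K * m := by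
    intro f K hK
    rw [hm, ← integral_const_mul, ← Real.norm_eq_abs]
    refine norm_integral_le_of_norm_le (rho_one_mom.const_mul _) (Eventually.of_forall fun z => ?_)
    rw [Real.norm_eq_abs, abs_mul, abs_of_pos (rho_pos one_pos z)]
    nlinarith [mul_le_mul_of_nonneg_left (hK z) (rho_pos one_pos z).le]
  have hL1' : (0 : ℝ) ≤ L1 := L1.2
  have hL2' : (0 : ℝ) ≤ L2 := L2.2
  constructor
  · rw [hrep, abs_mul, abs_of_pos (inv_pos.2 hpi), mul_assoc]
    refine mul_le_mul_of_nonneg_left ?_ (inv_pos.2 hpi).le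
    refine (hbd _ (L1 * η) fun z => ?_).trans (by nlinarith [mul_nonneg hL2' (mul_nonneg hm0 hη.le)])
    have := hL1.dist_le_mul (x - η • z) x
    rw [Real.dist_eq, dist_eq_norm, sub_sub_cancel_left, norm_neg, norm_smul,
      Real.norm_of_nonneg hη.le] at this
    linarith
  · have hlip : LipschitzWith (Real.toNNReal ((16 * π ^ 2)⁻¹ * ((L1 + L2) * m) * η))
        (fun x => (16 * π ^ 2)⁻¹ * conv g (rho η) x - g x) := by
      refine LipschitzWith.of_dist_le_mul fun x x' => ?_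
      rw [Real.coe_toNNReal _ (by positivity), Real.dist_eq, hrep, hrep, ← mul_sub,
        ← integral_sub (hint2 x) (hint2 x'), abs_mul, abs_of_pos (inv_pos.2 hpi), mul_assoc,
        mul_assoc]
      refine mul_le_mul_of_nonneg_left ?_ (inv_pos.2 hpi).le
      simp only [← mul_sub]
      refine (hbd _ (L2 * η * dist x x') fun z => ?_).trans (by
        have : 0 ≤ L1 * m * (η * dist x x') := by positivity
        nlinarith)
      have hd : ∀ y : E, HasFDerivAt (fun y => g (y - η • z) - g y)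
          (fderiv ℝ g (y - η • z) - fderiv ℝ g y) y := by
        intro y
        have h1 : HasFDerivAt (fun y => g (y - η • z)) (fderiv ℝ g (y - η • z)) y := by
          have := (sdiff hg (y - η • z)).hasFDerivAt.comp y ((hasFDerivAt_id y).sub_const (η • z))
          exact this.congr_fderiv (by simp)
        exact h1.sub (sdiff hg y).hasFDerivAt
      have hb : ∀ y : E, ‖fderiv ℝ g (y - η • z) - fderiv ℝ g y‖ ≤ L2 * η * ‖z‖ := by
        intro y
        have := hL2.dist_le_mul (y - η • z) y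
        rw [dist_eq_norm, dist_eq_norm, sub_sub_cancel_left, norm_neg, norm_smul,
          Real.norm_of_nonneg hη.le] at this
        linarith
      have := (convex_univ (𝕜 := ℝ) (E := E)).norm_image_sub_le_of_norm_hasFDerivWithin_le
        (f := fun y => g (y - η • z) - g y) (fun y _ => (hd y).hasFDerivWithinAt)
        (fun y _ => hb y) (mem_univ x') (mem_univ x)
      rw [Real.norm_eq_abs] at this
      rw [dist_eq_norm]
      linarith
    have := norm_fderiv_le_of_lipschitz ℝ hlip (x₀ := x)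
    rwa [Real.coe_toNNReal _ (by positivity)] at this

end Pool.Agent.H196Z.QC
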