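import Pool.Agent.H196Z.QC.Ansatz

set_option autoImplicit false

open scoped ContDiff InnerProductSpace
open MeasureTheory Real Filter Topology Set Metric

namespace Pool.Agent.H196Z.QC

theorem Q_est {R G w : E → ℝ} (hR : ContDiff ℝ ∞ R) (hG : ContDiff ℝ ∞ G) (hw : ContDiff ℝ ∞ w)
    {σ M τ : ℝ} (x : E) (hτ : τ ≤ 1 / 4) (hσ : σ * M ≤ τ)
    (r0 : |R x| ≤ σ) (r1 : ‖fderiv ℝ R x‖ ≤ σ) (g0 : |G x| ≤ M) (g1 : ‖fderiv ℝ G x‖ ≤ M)
    (w0 : |w x| ≤ τ) (w1 : ‖fderiv ℝ w x‖ ≤ τ) :
    |(6 + R x * G x) * Real.exp (-4 * w x) - 6| ≤ 100 * τ ∧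
    ‖fderiv ℝ (fun x => (6 + R x * G x) * Real.exp (-4 * w x)) x‖ ≤ 100 * τ := by
  have hσ0 : 0 ≤ σ := (abs_nonneg _).trans r0
  have hM0 : 0 ≤ M := (abs_nonneg _).trans g0
  have hτ0 : 0 ≤ τ := (abs_nonneg _).trans w0
  have h4 : |-4 * w x| ≤ 4 * τ := by rw [abs_mul]; norm_num; linarith
  have he : |Real.exp (-4 * w x) - 1| ≤ 8 * τ := by
    have := Real.abs_exp_sub_one_le (x := -4 * w x) (by linarith)
    linarith
  have he3 : |Real.exp (-4 * w x)| ≤ 3 := by
    rw [abs_of_pos (Real.exp_pos _)]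
    have := (abs_le.1 he).2
    linarith
  have hRG : |R x * G x| ≤ τ := by
    rw [abs_mul]
    exact (mul_le_mul r0 g0 (abs_nonneg _) hσ0).trans hσ
  constructor
  · have e1 : (6 + R x * G x) * Real.exp (-4 * w x) - 6 =
        6 * (Real.exp (-4 * w x) - 1) + (R x * G x) * Real.exp (-4 * w x) := by ring
    rw [e1]
    refine (abs_add_le _ _).trans ?_
    rw [abs_mul, abs_mul (R x * G x)]
    have := mul_le_mul hRG he3 (abs_nonneg _) hτ0
    norm_num
    norm_num at he this
    linarith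
  · have d1 := (((sdiff hR x).hasFDerivAt.mul (sdiff hG x).hasFDerivAt).const_add 6).mul
      (((sdiff hw x).hasFDerivAt.const_mul (-4)).exp)
    have d2 : HasFDerivAt (fun x => (6 + R x * G x) * Real.exp (-4 * w x)) _ x := d1
    rw [d2.fderiv]
    refine (norm_add_le _ _).trans ?_
    rw [norm_smul, norm_smul, norm_smul, norm_smul]
    have a1 : ‖6 + (R * G) x‖ ≤ 7 := by
      refine (norm_add_le _ _).trans ?_
      have : ‖(R * G) x‖ ≤ τ := hRG
      norm_num at this ⊢
      linarith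
    have a2 : ‖Real.exp (-4 * w x)‖ ≤ 3 := he3
    have a3 : ‖R x • fderiv ℝ G x + G x • fderiv ℝ R x‖ ≤ 2 * τ := by
      refine (norm_add_le _ _).trans ?_
      rw [norm_smul, norm_smul]
      have b1 : ‖R x‖ * ‖fderiv ℝ G x‖ ≤ σ * M := mul_le_mul r0 g1 (norm_nonneg _) hσ0
      have b2 : ‖G x‖ * ‖fderiv ℝ R x‖ ≤ M * σ := mul_le_mul g0 r1 (norm_nonneg _) hM0
      linarith
    have a4 : ‖(-4 : ℝ)‖ = 4 := by norm_num
    rw [a4]
    have c1 : ‖6 + (R * G) x‖ * (‖Real.exp (-4 * w x)‖ * (4 * ‖fderiv ℝ w x‖)) ≤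
        7 * (3 * (4 * τ)) := by gcongr
    have c2 : ‖Real.exp (-4 * w x)‖ * ‖R x • fderiv ℝ G x + G x • fderiv ℝ R x‖ ≤
        3 * (2 * τ) := by gcongr
    linarith

theorem key {δ τ : ℝ} (hδ : 0 < δ) (hδ1 : δ ≤ 1) (hτ : 0 < τ) (hτ1 : τ ≤ 1 / 4) :
    ∃ (ε : ℝ) (u Q err : E → ℝ), 0 < ε ∧ ε ≤ τ ∧ ContDiff ℝ ∞ u ∧ ContDiff ℝ ∞ Q ∧
      Continuous err ∧
      (∀ x ∈ ball (0 : E) 1, lap (lap u) x = Q x * Real.exp (4 * u x) ∧ |Q x - 6| ≤ 100 * τ ∧
        ‖fderiv ℝ Q x‖ ≤ 100 * τ ∧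
        Q x * Real.exp (4 * u x) = rho ε (x - P δ) + rho ε (x + P δ) + err x) ∧
      ∫ x in ball (0 : E) 1, |err x| ≤ τ * (1 + (volume : Measure E).real (ball 0 1)) := by
  obtain ⟨K, hK, hdef⟩ := defect_bound hδ hδ1
  set J := ∫ z, S z with hJ
  have hJ0 : 0 ≤ J := integral_nonneg S_nonneg
  set ε := min (min δ τ) ((τ / (108 * K * J + 1)) ^ 2) with hε
  have hε0 : 0 < ε := by positivity
  have hεδ : ε ≤ δ := (min_le_left _ _).trans (min_le_left _ _)
  have hετ : ε ≤ τ := (min_le_left _ _).trans (min_le_right _ _)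
  have hsq : 27 * (K * √ε) * (4 * J) ≤ τ := by
    have h1 : √ε ≤ τ / (108 * K * J + 1) :=
      Real.sqrt_le_iff.2 ⟨by positivity, min_le_right _ _⟩
    rw [le_div_iff₀ (by positivity)] at h1
    have := Real.sqrt_nonneg ε
    linarith
  have hKe : 0 ≤ K * √ε := by positivity
  let χ : ContDiffBump (0 : E) := ⟨1, 2, one_pos, one_lt_two⟩
  set F : E → ℝ := fun y => 6 * Real.exp (4 * W δ ε y) - (rho ε (y - P δ) + rho ε (y + P δ))
    with hF
  have hW := W_smooth δ hε0
  have hrho := rho_smooth hε0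
  have hFs : ContDiff ℝ ∞ F := by
    refine (contDiff_const.mul (contDiff_const.mul hW).exp).sub ((shift_smooth hrho _).add ?_)
    exact hrho.comp (contDiff_id.add contDiff_const)
  set g : E → ℝ := fun y => χ y * F y with hg
  have hgs : ContDiff ℝ ∞ g := χ.contDiff.mul hFs
  have hgc : HasCompactSupport g := χ.hasCompactSupport.mul_right
  have hg0 : ∀ y : E, 2 ≤ ‖y‖ → g y = 0 := by
    intro y hy
    have : χ y = 0 := χ.zero_of_le_dist (by simpa using hy)
    simp [hg, this]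
  have hg1 : ∀ y : E, ‖y‖ < 2 → y ≠ P δ → y ≠ -P δ →
      |g y| ≤ K * √ε * (‖y - P δ‖ ^ (-(5 / 2 : ℝ)) + ‖y + P δ‖ ^ (-(5 / 2 : ℝ))) := by
    intro y hy h1 h2
    refine le_trans ?_ (hdef ε hε0 hεδ y hy h1 h2)
    simp only [hg]
    rw [abs_mul, abs_of_nonneg χ.nonneg]
    exact mul_le_of_le_one_left (abs_nonneg _) χ.le_one
  have hgF : ∀ y ∈ ball (0 : E) 1, g y = F y := by
    intro y hy
    have : χ y = 1 := χ.one_of_mem_closedBall (ball_subset_closedBall hy)
    simp [hg, this]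
  have hP : ‖P δ‖ ≤ 1 := by rw [norm_P hδ]; exact hδ1
  obtain ⟨L, hL, happ⟩ := approx_id hgs hgc
  set G : E → ℝ := fun x => Real.exp (-4 * W δ ε x) with hG
  have hGs : ContDiff ℝ ∞ G := (contDiff_const.mul hW).exp
  obtain ⟨M1, hM1⟩ := (isCompact_closedBall (0 : E) 1).exists_bound_of_continuousOn
    hGs.continuous.continuousOn
  obtain ⟨M2, hM2⟩ := (isCompact_closedBall (0 : E) 1).exists_bound_of_continuousOn
    (hGs.continuous_fderiv (by simp)).continuousOn
  set M := max (max M1 M2) 1 with hM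
  have hM0 : 1 ≤ M := le_max_right _ _
  set η := min 1 (τ / ((L + 1) * M)) with hη
  have hη0 : 0 < η := by positivity
  have hη1 : η ≤ 1 := min_le_left _ _
  have hη2 : L * η * M ≤ τ := by
    have h1 : η ≤ τ / ((L + 1) * M) := min_le_right _ _
    rw [le_div_iff₀ (by positivity)] at h1
    have : 0 ≤ η * M := by positivity
    linarith
  have hη3 : L * η ≤ τ := by
    have : L * η * 1 ≤ L * η * M := by gcongr
    linarith
  set c0 : ℝ := (16 * π ^ 2)⁻¹ with hc0
  have hc00 : 0 < c0 := by positivity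
  have hc01 : c0 ≤ 1 := by
    apply inv_le_one_of_one_le₀
    nlinarith [Real.pi_gt_three]
  have hb := bub_smooth hη0
  have hcv := conv_smooth hgs hgc hb.continuous
  set w : E → ℝ := fun x => c0 * conv g (bub η) x with hw
  have hws : ContDiff ℝ ∞ w := contDiff_const.mul hcv
  set R : E → ℝ := fun x => c0 * conv g (rho η) x - g x with hR
  have hRs : ContDiff ℝ ∞ R :=
    (contDiff_const.mul (conv_smooth hgs hgc (rho_smooth hη0).continuous)).sub hgs
  have hlw : lap (lap w) = fun x => c0 * conv g (rho η) x := by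
    rw [hw, lap_cmul hcv, lap_cmul (lap_smooth hcv), lap_conv hgs.continuous hgc hb,
      lap_conv hgs.continuous hgc (lap_smooth hb), bilap_bub hη0]
  refine ⟨ε, fun x => W δ ε x + w x, fun x => (6 + R x * G x) * Real.exp (-4 * w x),
    fun x => g x + R x, hε0, hετ, hW.add hws,
    (contDiff_const.add (hRs.mul hGs)).mul (contDiff_const.mul hws).exp,
    hgs.continuous.add hRs.continuous, fun x hx => ?_, ?_⟩
  · have hx1 : ‖x‖ < 1 := by simpa using hx
    have hQ : (6 + R x * G x) * Real.exp (-4 * w x) * Real.exp (4 * (W δ ε x + w x)) =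
        rho ε (x - P δ) + rho ε (x + P δ) + (g x + R x) := by
      have e1 : Real.exp (-4 * w x) * Real.exp (4 * (W δ ε x + w x)) =
          Real.exp (4 * W δ ε x) := by rw [← Real.exp_add]; ring_nf
      have e2 : G x * Real.exp (4 * W δ ε x) = 1 := by
        simp only [hG]; rw [← Real.exp_add]; simp
      rw [mul_assoc, e1, hgF x hx, add_mul, mul_assoc, e2]
      simp only [hF]
      ring
    have w0 : |w x| ≤ τ := by
      have := pot_bound (k := bub η) (c := 27) (by norm_num) hKe hP hg0 hg1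
        (fun z hz hz3 => bub_bound hη0 hη1 z hz hz3) x hx1
      simp only [hw]
      rw [abs_mul, abs_of_pos hc00]
      exact (mul_le_of_le_one_left (abs_nonneg _) hc01).trans (this.trans hsq)
    have w1 : ‖fderiv ℝ w x‖ ≤ τ := by
      refine ContinuousLinearMap.opNorm_le_bound _ hτ.le fun v => ?_
      have := pot_bound (k := pd v (bub η)) (c := 2 * ‖v‖) (by positivity) hKe hP hg0 hg1
        (fun z hz _ => pd_bub_bound hη0 v z hz) x hx1
      change |pd v w x| ≤ _
      rw [hw, pd_cmul hcv, pd_conv hgs.continuous hgc hb]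
      simp only
      rw [abs_mul, abs_of_pos hc00]
      refine (mul_le_of_le_one_left (abs_nonneg _) hc01).trans (this.trans ?_)
      have h1 : 0 ≤ K * √ε * (4 * J) := by positivity
      have h2 : 2 * (K * √ε * (4 * J)) ≤ τ := by linarith
      have := mul_le_mul_of_nonneg_right h2 (norm_nonneg v)
      linarith
    have hxc := ball_subset_closedBall hx
    have est := Q_est hRs hGs hws (σ := L * η) (M := M) x hτ1 hη2 (happ η hη0 x).1
      (happ η hη0 x).2 ((hM1 x hxc).trans ((le_max_left _ _).trans (le_max_left _ _)))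
      ((hM2 x hxc).trans ((le_max_right _ _).trans (le_max_left _ _))) w0 w1
    refine ⟨?_, est.1, est.2, hQ⟩
    rw [hQ, lap_add hW hws, lap_add (lap_smooth hW) (lap_smooth hws), bilap_W δ hε0, hlw]
    simp only [hR]
    ring
  · have hgi : Integrable (fun x => |g x|) :=
      (hgs.continuous.integrable_of_hasCompactSupport hgc).abs
    have h1 : ∫ x, |g x| ≤ τ := by
      have := pot_bound (g := fun x => |g x|) (k := fun _ => 1) (c := 3) (by norm_num) hKe hP
        (fun y hy => by simp [hg0 y hy]) (fun y hy h1 h2 => by rw [abs_abs]; exact hg1 y hy h1 h2)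
        (fun z hz hz3 => by
          have hn : 0 < ‖z‖ := norm_pos_iff.2 hz
          rw [abs_one, ← div_eq_mul_inv, le_div_iff₀ hn]; linarith) 0 (by simp)
      have h2 : conv (fun x => |g x|) (fun _ => 1) 0 = ∫ x, |g x| := by simp [conv]
      rw [h2] at this
      have h1 : 0 ≤ K * √ε * (4 * J) := by positivity
      linarith [le_abs_self (∫ x, |g x|)]
    have h2 : ∫ x in ball (0 : E) 1, |g x + R x| ≤ ∫ x in ball (0 : E) 1, (|g x| + τ) := by
      refine integral_mono_of_nonneg (Eventually.of_forall fun x => abs_nonneg _)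
        (hgi.integrableOn.add (integrableOn_const measure_ball_lt_top.ne))
        (Eventually.of_forall fun x => ?_)
      have := (happ η hη0 x).1
      have := abs_add_le (g x) (R x)
      simp only [hR] at this ⊢
      linarith
    rw [integral_add hgi.integrableOn (integrableOn_const measure_ball_lt_top.ne),
      setIntegral_const, smul_eq_mul] at h2
    have h3 : ∫ x in ball (0 : E) 1, |g x| ≤ ∫ x, |g x| :=
      setIntegral_le_integral hgi (Eventually.of_forall fun x => abs_nonneg _)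
    linarith

theorem mass_ball {ε r : ℝ} (hε : 0 < ε) (hr : 0 < r) {s : Set E} (hs : MeasurableSet s)
    (hsub : ball 0 (2 * r) ⊆ s) (Q : E) (hQ : ‖Q‖ ≤ r) :
    |(∫ x in s, rho ε (x - Q)) - 16 * π ^ 2| ≤ ε ^ 4 * (1 + 1 / r ^ 2) ^ 4 * (16 * π ^ 2) := by
  have i1 : Integrable (fun x => rho ε (x - Q)) := (rho_int hε).comp_sub_right Q
  have i2 : Integrable (fun x => rho 1 (x - Q)) := rho_one_int.comp_sub_right Q
  have h1 := integral_add_compl hs i1
  rw [integral_sub_right_eq_self (μ := volume) (rho ε), rho_mass hε] at h1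
  have h2 : 0 ≤ ∫ x in sᶜ, rho ε (x - Q) := integral_nonneg fun x => (rho_pos hε _).le
  have h3 : ∫ x in sᶜ, rho ε (x - Q) ≤
      ∫ x in sᶜ, ε ^ 4 * (1 + 1 / r ^ 2) ^ 4 * rho 1 (x - Q) := by
    refine setIntegral_mono_on i1.integrableOn (i2.const_mul _).integrableOn hs.compl
      fun x hx => rho_tail hε hr _ ?_
    have : 2 * r ≤ ‖x‖ := by
      by_contra h
      exact hx (hsub (by simpa using not_le.1 h))
    linarith [norm_sub_norm_le x Q]
  have h4 : ∫ x in sᶜ, ε ^ 4 * (1 + 1 / r ^ 2) ^ 4 * rho 1 (x - Q) ≤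
      ∫ x, ε ^ 4 * (1 + 1 / r ^ 2) ^ 4 * rho 1 (x - Q) :=
    setIntegral_le_integral (i2.const_mul _) (Eventually.of_forall fun x =>
      mul_nonneg (by positivity) (rho_pos one_pos _).le)
  rw [integral_const_mul (μ := volume), integral_sub_right_eq_self (μ := volume) (rho 1),
    rho_one_mass] at h4
  rw [abs_le]
  constructor <;> linarith

theorem seq_exists : ∃ (u Q : ℕ → E → ℝ), (∀ k, ContDiff ℝ ∞ (u k)) ∧ (∀ k, ContDiff ℝ ∞ (Q k)) ∧
    (∀ k, ∀ x ∈ ball (0 : E) 1, lap (lap (u k)) x = Q k x * Real.exp (4 * u k x) ∧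
      |Q k x - 6| ≤ 100 * (1 / ((k : ℝ) + 20)) ∧ ‖fderiv ℝ (Q k) x‖ ≤ 100 * (1 / ((k : ℝ) + 20))) ∧
    ∀ R : ℝ, 0 < R → Tendsto (fun k => ∫ x in ball (0 : E) 1 ∩ ball 0 R,
      |Q k x| * Real.exp (4 * u k x)) atTop (𝓝 (32 * π ^ 2)) := by
  have hp : ∀ k : ℕ, 0 < 1 / ((k : ℝ) + 20) := fun k => by positivity
  have hq : ∀ k : ℕ, 1 / ((k : ℝ) + 20) ≤ 1 / 4 := fun k =>
    one_div_le_one_div_of_le (by norm_num) (by linarith [Nat.cast_nonneg (α := ℝ) k])
  choose ε u Q err hε hετ hu hQ herr hpt hint using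
    fun k : ℕ => key (hp k) ((hq k).trans (by norm_num)) (hp k) (hq k)
  refine ⟨u, Q, hu, hQ, fun k x hx => ⟨(hpt k x hx).1, (hpt k x hx).2.1, (hpt k x hx).2.2.1⟩,
    fun R hR => ?_⟩
  have hlim : Tendsto (fun k : ℕ => 1 / ((k : ℝ) + 20)) atTop (𝓝 0) :=
    (tendsto_atTop_add_const_right _ _ tendsto_natCast_atTop_atTop).const_div_atTop 1
  have hεlim : Tendsto ε atTop (𝓝 0) :=
    squeeze_zero (fun k => (hε k).le) hετ hlim
  set r := min R 1 / 2 with hr
  have hr0 : 0 < r := by positivity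
  set s := ball (0 : E) 1 ∩ ball 0 R with hs
  have hsm : MeasurableSet s := measurableSet_ball.inter measurableSet_ball
  have hsub : ball 0 (2 * r) ⊆ s := by
    have : 2 * r = min R 1 := by rw [hr]; ring
    rw [this]
    exact subset_inter (ball_subset_ball (min_le_right _ _)) (ball_subset_ball (min_le_left _ _))
  rw [tendsto_iff_norm_sub_tendsto_zero]
  have hb : Tendsto (fun k : ℕ => 1 / ((k : ℝ) + 20) * (1 + (volume : Measure E).real (ball 0 1)) +
      2 * (ε k ^ 4 * (1 + 1 / r ^ 2) ^ 4 * (16 * π ^ 2))) atTop (𝓝 0) := by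
    have := (hlim.mul_const (1 + (volume : Measure E).real (ball 0 1))).add
      ((((hεlim.pow 4).mul_const ((1 + 1 / r ^ 2) ^ 4)).mul_const (16 * π ^ 2)).const_mul 2)
    simpa using this
  refine squeeze_zero' (Eventually.of_forall fun k => norm_nonneg _) ?_ hb
  filter_upwards [hlim.eventually (ge_mem_nhds hr0)] with k hk
  have hPn : ‖P (1 / ((k : ℝ) + 20))‖ ≤ r := by rw [norm_P (hp k)]; exact hk
  set p := P (1 / ((k : ℝ) + 20)) with hpd
  have m1 := mass_ball (hε k) hr0 hsm hsub p hPn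
  have m2 := mass_ball (hε k) hr0 hsm hsub (-p) (by rwa [norm_neg])
  simp only [sub_neg_eq_add] at m2
  have i1 : IntegrableOn (fun x => rho (ε k) (x - p)) s :=
    ((rho_int (hε k)).comp_sub_right p).integrableOn
  have i2 : IntegrableOn (fun x => rho (ε k) (x + p)) s :=
    ((rho_int (hε k)).comp_add_right p).integrableOn
  have ie : IntegrableOn (fun x => |err k x|) (ball (0 : E) 1) :=
    ((herr k).abs.continuousOn.integrableOn_compact (isCompact_closedBall 0 1)).mono_set
      ball_subset_closedBall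
  have iM : IntegrableOn (fun x => |Q k x| * Real.exp (4 * u k x)) s := by
    have c : Continuous fun x => |Q k x| * Real.exp (4 * u k x) :=
      (hQ k).continuous.abs.mul (continuous_const.mul (hu k).continuous).rexp
    exact (c.continuousOn.integrableOn_compact (isCompact_closedBall 0 1)).mono_set
      (inter_subset_left.trans ball_subset_closedBall)
  have i12 : IntegrableOn (fun x => rho (ε k) (x - p) + rho (ε k) (x + p)) s := i1.add i2
  have h1 : |(∫ x in s, |Q k x| * Real.exp (4 * u k x)) -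
      ∫ x in s, (rho (ε k) (x - p) + rho (ε k) (x + p))| ≤ ∫ x in s, |err k x| := by
    rw [← integral_sub iM i12, ← Real.norm_eq_abs]
    refine norm_integral_le_of_norm_le (ie.mono_set inter_subset_left) ?_
    refine (ae_restrict_iff' hsm).2 (Eventually.of_forall fun x hx => ?_)
    have e1 : |Q k x| * Real.exp (4 * u k x) = |Q k x * Real.exp (4 * u k x)| := by
      rw [abs_mul, abs_of_pos (Real.exp_pos _)]
    rw [e1, (hpt k x hx.1).2.2.2, Real.norm_eq_abs]
    have hpos : 0 < rho (ε k) (x - p) + rho (ε k) (x + p) :=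
      add_pos (rho_pos (hε k) _) (rho_pos (hε k) _)
    have := abs_abs_sub_abs_le_abs_sub (rho (ε k) (x - p) + rho (ε k) (x + p) + err k x)
      (rho (ε k) (x - p) + rho (ε k) (x + p))
    rwa [abs_of_pos hpos, add_sub_cancel_left] at this
  have h2 : ∫ x in s, |err k x| ≤ ∫ x in ball (0 : E) 1, |err k x| :=
    setIntegral_mono_set ie (Eventually.of_forall fun x => abs_nonneg _)
      (inter_subset_left (s := ball (0 : E) 1) (t := ball 0 R)).eventuallyLE
  rw [integral_add i1 i2] at h1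
  have h3 := hint k
  rw [Real.norm_eq_abs, abs_le]
  rw [abs_le] at h1 m1 m2
  constructor <;> linarith [h1.1, h1.2, m1.1, m1.2, m2.1, m2.2]

end Pool.Agent.H196Z.QC
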